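import Mathlib

/-!
# Hole probability of the Gaussian entire function in thin half annuli
-/

open MeasureTheory Filter Topology Finset

namespace Pool.Agent.Results.MP_629fb1_pr.HalfAnnulus

/-! ### Definitions -/

/-- The law of a standard complex Gaussian variable: density `e^{-|w|²}/π`. -/
noncomputable def gaussC : Measure ℂ :=
  volume.withDensity (fun w => ENNReal.ofReal (Real.pi⁻¹ * Real.exp (-‖w‖ ^ 2)))

theorem integral_exp_sq : ∫ w : ℂ, Real.exp (-‖w‖ ^ 2) = Real.pi := by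
  have h := Complex.integral_exp_neg_rpow (p := 2) (by norm_num)
  have e : (fun x : ℂ => Real.exp (-‖x‖ ^ (2 : ℝ))) = fun x => Real.exp (-‖x‖ ^ 2) := by
    funext x
    rw [Real.rpow_two]
  rw [e] at h
  rw [h]
  norm_num

theorem integrable_exp_sq : Integrable (fun w : ℂ => Real.exp (-‖w‖ ^ 2)) := by
  by_contra h
  have := integral_undef h
  rw [integral_exp_sq] at this
  exact Real.pi_ne_zero this

theorem integral_sq_exp_sq : ∫ w : ℂ, ‖w‖ ^ 2 * Real.exp (-‖w‖ ^ 2) = Real.pi := by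
  have h := Complex.integral_rpow_mul_exp_neg_rpow (p := 2) (q := 2) (by norm_num) (by norm_num)
  have e : (fun x : ℂ => ‖x‖ ^ (2 : ℝ) * Real.exp (-‖x‖ ^ (2 : ℝ))) =
      fun x => ‖x‖ ^ 2 * Real.exp (-‖x‖ ^ 2) := by
    funext x
    rw [Real.rpow_two]
  rw [e] at h
  rw [h]
  have h2 : ((2 : ℝ) + 2) / 2 = 2 := by norm_num
  rw [h2, Real.Gamma_two]
  ring

theorem integrable_sq_exp_sq : Integrable (fun w : ℂ => ‖w‖ ^ 2 * Real.exp (-‖w‖ ^ 2)) := by
  by_contra h
  have := integral_undef h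
  rw [integral_sq_exp_sq] at this
  exact Real.pi_ne_zero this

theorem gaussC_dens_meas :
    Measurable (fun w : ℂ => ENNReal.ofReal (Real.pi⁻¹ * Real.exp (-‖w‖ ^ 2))) := by
  fun_prop

instance : IsProbabilityMeasure gaussC := by
  constructor
  unfold gaussC
  rw [withDensity_apply _ MeasurableSet.univ, Measure.restrict_univ,
    ← ofReal_integral_eq_lintegral_ofReal (integrable_exp_sq.const_mul _)
      (Eventually.of_forall fun w => by positivity), integral_const_mul, integral_exp_sq,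
    inv_mul_cancel₀ Real.pi_ne_zero, ENNReal.ofReal_one]

/-- The law of the sequence of coefficients `ξ₀, ξ₁, …`. -/
noncomputable def gefLaw : Measure (ℕ → ℂ) := Measure.infinitePi (fun _ => gaussC)

instance : IsProbabilityMeasure gefLaw := by unfold gefLaw; infer_instance

/-- The Gaussian entire function `∑ ξ_n z^n / √(n!)`. -/
noncomputable def gef (ξ : ℕ → ℂ) (z : ℂ) : ℂ :=
  ∑' n : ℕ, ξ n * z ^ n / ((Real.sqrt (n.factorial : ℝ) : ℝ) : ℂ)

/-- The hole probability exponent `p_{H,K}(f; r)`. -/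
noncomputable def holeExponent (K : Set ℂ) (r : ℝ) : ℝ :=
  -Real.log (gefLaw.real {ξ | ∀ z ∈ K, gef ξ (r * z) ≠ 0})

/-- The transfinite diameter (logarithmic capacity) of `K`: the limit, which is the infimum, of
the nonincreasing sequence `(max ∏_{i<j} |z_i - z_j|)^{2/(n(n-1))}`, `n ≥ 2` (here `n = m + 2`). -/
noncomputable def cap (K : Set ℂ) : ℝ :=
  ⨅ m : ℕ, (⨆ z : Fin (m + 2) → K, ∏ i, ∏ j ∈ Ioi i, ‖(z i : ℂ) - z j‖) ^
    ((2 : ℝ) / (((m : ℝ) + 2) * ((m : ℝ) + 1)))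

/-- The half annulus `1 ≤ |z| ≤ 1 + w`, `Im z ≥ 0`. -/
def halfAnnulus (w : ℝ) : Set ℂ := {z | 1 ≤ ‖z‖ ∧ ‖z‖ ≤ 1 + w ∧ 0 ≤ z.im}

/-! ### Gaussian estimates -/

theorem gaussC_ge (c : ℂ) {ρ R : ℝ} (hρ : 0 ≤ ρ) (hR : ∀ w ∈ Metric.closedBall c ρ, ‖w‖ ≤ R) :
    ENNReal.ofReal (ρ ^ 2 * Real.exp (-R ^ 2)) ≤ gaussC (Metric.closedBall c ρ) := by
  unfold gaussC
  rw [withDensity_apply _ measurableSet_closedBall]
  calc ENNReal.ofReal (ρ ^ 2 * Real.exp (-R ^ 2))
      = ENNReal.ofReal (Real.pi⁻¹ * Real.exp (-R ^ 2)) * volume (Metric.closedBall c ρ) := by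
        have hpi : ((NNReal.pi : NNReal) : ENNReal) = ENNReal.ofReal Real.pi := by
          rw [← NNReal.coe_real_pi, ENNReal.ofReal_coe_nnreal]
        rw [Complex.volume_closedBall, hpi, ← ENNReal.ofReal_pow hρ, ← ENNReal.ofReal_mul
          (by positivity), ← ENNReal.ofReal_mul (by positivity)]
        congr 1
        have := Real.pi_ne_zero
        field_simp
    _ = ∫⁻ _w in Metric.closedBall c ρ, ENNReal.ofReal (Real.pi⁻¹ * Real.exp (-R ^ 2)) := by
        rw [setLIntegral_const]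
    _ ≤ _ := by
        refine setLIntegral_mono' measurableSet_closedBall fun w hw => ?_
        refine ENNReal.ofReal_le_ofReal ?_
        have h1 := hR w hw
        have h2 : ‖w‖ ^ 2 ≤ R ^ 2 := pow_le_pow_left₀ (norm_nonneg _) h1 2
        have h3 : Real.exp (-R ^ 2) ≤ Real.exp (-‖w‖ ^ 2) := Real.exp_le_exp.2 (by linarith)
        exact mul_le_mul_of_nonneg_left h3 (by positivity)

theorem gaussC_second : ∫⁻ w, ENNReal.ofReal (‖w‖ ^ 2) ∂gaussC = 1 := by
  unfold gaussC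
  rw [lintegral_withDensity_eq_lintegral_mul _ gaussC_dens_meas (by fun_prop)]
  simp only [Pi.mul_apply]
  have h : ∀ w : ℂ, ENNReal.ofReal (Real.pi⁻¹ * Real.exp (-‖w‖ ^ 2)) * ENNReal.ofReal (‖w‖ ^ 2) =
      ENNReal.ofReal (Real.pi⁻¹ * (‖w‖ ^ 2 * Real.exp (-‖w‖ ^ 2))) := by
    intro w
    rw [← ENNReal.ofReal_mul (by positivity)]
    congr 1
    ring
  simp only [h]
  rw [← ofReal_integral_eq_lintegral_ofReal (integrable_sq_exp_sq.const_mul _)
      (Eventually.of_forall fun w => by positivity), integral_const_mul, integral_sq_exp_sq,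
    inv_mul_cancel₀ Real.pi_ne_zero, ENNReal.ofReal_one]

theorem gaussC_tail {R : ℝ} (hR : 0 < R) :
    ENNReal.ofReal (1 - 1 / R ^ 2) ≤ gaussC (Metric.closedBall 0 R) := by
  have h1 : gaussC (Metric.closedBall 0 R)ᶜ ≤ ENNReal.ofReal (1 / R ^ 2) := by
    have h2 := meas_ge_le_lintegral_div (μ := gaussC) (f := fun w : ℂ => ENNReal.ofReal (‖w‖ ^ 2))
      (by fun_prop) (ε := ENNReal.ofReal (R ^ 2)) (by simp [hR.ne']) (by simp)
    rw [gaussC_second] at h2
    have h3 : (Metric.closedBall (0 : ℂ) R)ᶜ ⊆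
        {w : ℂ | ENNReal.ofReal (R ^ 2) ≤ ENNReal.ofReal (‖w‖ ^ 2)} := by
      intro w hw
      simp only [Set.mem_compl_iff, Metric.mem_closedBall, dist_zero_right, not_le] at hw
      exact ENNReal.ofReal_le_ofReal (pow_le_pow_left₀ hR.le hw.le 2)
    refine (measure_mono h3).trans (h2.trans (le_of_eq ?_))
    rw [one_div, one_div, ENNReal.ofReal_inv_of_pos (by positivity)]
  have h4 := prob_compl_eq_one_sub (μ := gaussC) (s := (Metric.closedBall (0 : ℂ) R)ᶜ)
    measurableSet_closedBall.compl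
  rw [compl_compl] at h4
  rw [h4, ENNReal.ofReal_sub _ (by positivity), ENNReal.ofReal_one]
  exact tsub_le_tsub_left h1 _

/-! ### The deterministic part -/

/-- `ρ^m / √(m!)` -/
noncomputable def tm (ρ : ℝ) (m : ℕ) : ℝ := ρ ^ m / Real.sqrt (m.factorial : ℝ)

theorem sqrt_fact_pos (m : ℕ) : 0 < Real.sqrt (m.factorial : ℝ) :=
  Real.sqrt_pos.2 (by exact_mod_cast m.factorial_pos)

theorem tm_pos {ρ : ℝ} (h : 0 < ρ) (m : ℕ) : 0 < tm ρ m := by
  have := sqrt_fact_pos m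
  unfold tm
  positivity

theorem tm_succ {ρ : ℝ} (m : ℕ) : tm ρ (m + 1) = tm ρ m * (ρ / Real.sqrt ((m : ℝ) + 1)) := by
  unfold tm
  rw [Nat.factorial_succ]
  push_cast
  rw [Real.sqrt_mul (by positivity), pow_succ]
  have h1 := sqrt_fact_pos m
  have h2 : 0 < Real.sqrt ((m : ℝ) + 1) := Real.sqrt_pos.2 (by positivity)
  field_simp

section

variable {w r ρ : ℝ} {N : ℕ}

theorem tm_below (hr : 0 < r) (hρ : r ≤ ρ) (hN : (N : ℝ) ≤ r ^ 2) {m : ℕ} (hm : m ≤ N) :
    tm ρ m ≤ tm ρ N := by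
  have hρ0 : 0 < ρ := lt_of_lt_of_le hr hρ
  induction N, hm using Nat.le_induction with
  | base => exact le_rfl
  | succ n _ ih =>
    have h1 : (n : ℝ) ≤ r ^ 2 := by push_cast at hN; linarith
    refine (ih h1).trans ?_
    rw [tm_succ]
    refine le_mul_of_one_le_right (tm_pos hρ0 n).le ?_
    rw [one_le_div (Real.sqrt_pos.2 (by positivity))]
    rw [Real.sqrt_le_left hρ0.le]
    push_cast at hN
    nlinarith

theorem tm_above (hr : 0 < r) (hw : 0 ≤ w) (hρ : r ≤ ρ) (hρ2 : ρ ≤ (1 + w) * r)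
    (hN : r ^ 2 < (N : ℝ) + 1) (k : ℕ) : tm ρ (N + k) ≤ (1 + w) ^ k * tm ρ N := by
  have hρ0 : 0 < ρ := lt_of_lt_of_le hr hρ
  induction k with
  | zero => simp
  | succ k ih =>
    rw [← add_assoc, tm_succ]
    have h1 : ρ / Real.sqrt (((N + k : ℕ) : ℝ) + 1) ≤ 1 + w := by
      rw [div_le_iff₀ (Real.sqrt_pos.2 (by positivity))]
      refine hρ2.trans (mul_le_mul_of_nonneg_left ?_ (by linarith))
      refine Real.le_sqrt_of_sq_le ?_
      push_cast
      have : (0 : ℝ) ≤ k := Nat.cast_nonneg k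
      linarith
    have h2 : 0 ≤ ρ / Real.sqrt (((N + k : ℕ) : ℝ) + 1) := by positivity
    calc tm ρ (N + k) * (ρ / Real.sqrt (((N + k : ℕ) : ℝ) + 1))
        ≤ ((1 + w) ^ k * tm ρ N) * (1 + w) :=
          mul_le_mul ih h1 h2 (mul_nonneg (by positivity) (tm_pos hρ0 N).le)
      _ = (1 + w) ^ (k + 1) * tm ρ N := by ring

theorem tm_far (hr : 0 < r) (hw : 0 ≤ w) (hw1 : w ≤ 1 / 20) (hρ : r ≤ ρ) (hρ2 : ρ ≤ (1 + w) * r)
    (hN : r ^ 2 < (N : ℝ) + 1) {M : ℕ} (hM : 18 * (N + 1) ≤ M) (j : ℕ) :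
    tm ρ (M + j) ≤ (1 / 4) ^ j * tm ρ M := by
  have hρ0 : 0 < ρ := lt_of_lt_of_le hr hρ
  induction j with
  | zero => simp
  | succ j ih =>
    rw [← add_assoc, tm_succ]
    have h1 : ρ / Real.sqrt (((M + j : ℕ) : ℝ) + 1) ≤ 1 / 4 := by
      rw [div_le_iff₀ (Real.sqrt_pos.2 (by positivity))]
      have h3 : 4 * ρ ≤ Real.sqrt (((M + j : ℕ) : ℝ) + 1) := by
        refine Real.le_sqrt_of_sq_le ?_
        have h4 : ρ ≤ 21 / 20 * r := hρ2.trans (mul_le_mul_of_nonneg_right (by linarith) hr.le)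
        have h5 : ρ ^ 2 ≤ (21 / 20 * r) ^ 2 := pow_le_pow_left₀ hρ0.le h4 2
        have h6 : (18 : ℝ) * (N + 1) ≤ M := by exact_mod_cast hM
        push_cast
        have : (0 : ℝ) ≤ j := Nat.cast_nonneg j
        nlinarith
      linarith
    have h2 : 0 ≤ ρ / Real.sqrt (((M + j : ℕ) : ℝ) + 1) := by positivity
    calc tm ρ (M + j) * (ρ / Real.sqrt (((M + j : ℕ) : ℝ) + 1))
        ≤ ((1 / 4) ^ j * tm ρ M) * (1 / 4) :=
          mul_le_mul ih h1 h2 (mul_nonneg (by positivity) (tm_pos hρ0 M).le)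
      _ = (1 / 4) ^ (j + 1) * tm ρ M := by ring

/-- the index from which on only growth bounds are imposed -/
def LL (N : ℕ) : ℕ := 36 * (N + 1)

/-- the bound imposed on the low coefficients -/
noncomputable def dd (w : ℝ) (N : ℕ) : ℝ := 1 / (4 * (LL N : ℝ) * (1 + w) ^ LL N)

theorem dd_pos (hw : 0 ≤ w) : 0 < dd w N := by
  have : (0 : ℝ) < (LL N : ℝ) := by unfold LL; positivity
  unfold dd
  positivity

/-- the good event -/
def Good (w : ℝ) (N : ℕ) (m : ℕ) : Set ℂ :=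
  if m = N then Metric.closedBall 2 1 else
    if m ≤ LL N then Metric.closedBall 0 (dd w N) else Metric.closedBall 0 (2 ^ (m - LL N))

theorem no_zero (hr : 0 < r) (hw : 0 ≤ w) (hw1 : w ≤ 1 / 20) (hN1 : (N : ℝ) ≤ r ^ 2)
    (hN : r ^ 2 < (N : ℝ) + 1) {ξ : ℕ → ℂ} (hξ : ∀ m, ξ m ∈ Good w N m) {z : ℂ}
    (hz1 : r ≤ ‖z‖) (hz2 : ‖z‖ ≤ (1 + w) * r) : gef ξ z ≠ 0 := by
  have hz0 : 0 < ‖z‖ := lt_of_lt_of_le hr hz1
  have hLpos : (0 : ℝ) < (LL N : ℝ) := by unfold LL; positivity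
  have hNL : N < LL N := by unfold LL; omega
  set T : ℕ → ℂ := fun n => ξ n * z ^ n / ((Real.sqrt (n.factorial : ℝ) : ℝ) : ℂ) with hT
  have hnorm : ∀ n, ‖T n‖ = ‖ξ n‖ * tm ‖z‖ n := by
    intro n
    simp only [hT, norm_div, norm_mul, norm_pow, Complex.norm_real, Real.norm_eq_abs,
      abs_of_pos (sqrt_fact_pos n)]
    unfold tm
    ring
  -- main term
  have hmain : tm ‖z‖ N ≤ ‖T N‖ := by
    rw [hnorm]
    refine le_mul_of_one_le_left (tm_pos hz0 N).le ?_
    have h1 := hξ N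
    simp only [Good, if_true, Metric.mem_closedBall, dist_eq_norm] at h1
    have h2 : ‖(2 : ℂ)‖ ≤ ‖ξ N‖ + ‖ξ N - 2‖ := by
      have := norm_sub_norm_le (2 : ℂ) (ξ N)
      rw [norm_sub_rev] at this
      linarith
    rw [Complex.norm_ofNat] at h2
    linarith
  -- low terms
  have hlow : ∀ m, m ≤ LL N → m ≠ N → ‖T m‖ ≤ tm ‖z‖ N / (4 * LL N) := by
    intro m hm hmN
    rw [hnorm]
    have h1 := hξ m
    simp only [Good, hmN, if_false, hm, if_true, mem_closedBall_zero_iff] at h1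
    have h2 : tm ‖z‖ m ≤ (1 + w) ^ LL N * tm ‖z‖ N := by
      rcases le_or_gt m N with h | h
      · refine (tm_below hr hz1 hN1 h).trans ?_
        exact le_mul_of_one_le_left (tm_pos hz0 N).le (one_le_pow₀ (by linarith))
      · obtain ⟨k, rfl⟩ : ∃ k, m = N + k := ⟨m - N, by omega⟩
        refine (tm_above hr hw hz1 hz2 hN k).trans ?_
        exact mul_le_mul_of_nonneg_right (pow_le_pow_right₀ (by linarith) (by omega))
          (tm_pos hz0 N).le
    calc ‖ξ m‖ * tm ‖z‖ m ≤ dd w N * ((1 + w) ^ LL N * tm ‖z‖ N) :=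
          mul_le_mul h1 h2 (tm_pos hz0 m).le (dd_pos hw).le
      _ = tm ‖z‖ N / (4 * LL N) := by
          unfold dd
          have : (1 + w) ^ LL N ≠ 0 := by positivity
          field_simp
  -- tail
  have htail : ∀ j, ‖T (j + (LL N + 1))‖ ≤ tm ‖z‖ N / 4 * (1 / 2) ^ (j + 1) := by
    intro j
    rw [hnorm]
    have h1 := hξ (j + (LL N + 1))
    have e1 : j + (LL N + 1) ≠ N := by omega
    have e2 : ¬ (j + (LL N + 1) ≤ LL N) := by omega
    simp only [Good, e1, if_false, e2, mem_closedBall_zero_iff] at h1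
    have e3 : j + (LL N + 1) - LL N = j + 1 := by omega
    rw [e3] at h1
    have h2 : tm ‖z‖ (j + (LL N + 1)) ≤ (1 / 4) ^ (j + 1) * (tm ‖z‖ N / 4) := by
      have e4 : j + (LL N + 1) = 18 * (N + 1) + (18 * (N + 1) + (j + 1)) := by
        unfold LL; omega
      rw [e4]
      refine (tm_far hr hw hw1 hz1 hz2 hN le_rfl _).trans ?_
      obtain ⟨k, hk, hk2⟩ : ∃ k, 18 * (N + 1) = N + k ∧ k ≤ 18 * (N + 1) :=
        ⟨18 * (N + 1) - N, by omega, by omega⟩
      have h3 : tm ‖z‖ (18 * (N + 1)) ≤ (21 / 20) ^ (18 * (N + 1)) * tm ‖z‖ N := by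
        have h4 := tm_above hr hw hz1 hz2 hN k
        rw [← hk] at h4
        refine h4.trans (mul_le_mul_of_nonneg_right ?_ (tm_pos hz0 N).le)
        calc (1 + w) ^ k ≤ (21 / 20) ^ k := pow_le_pow_left₀ (by linarith) (by linarith) k
          _ ≤ (21 / 20) ^ (18 * (N + 1)) := pow_le_pow_right₀ (by norm_num) hk2
      calc (1 / 4 : ℝ) ^ (18 * (N + 1) + (j + 1)) * tm ‖z‖ (18 * (N + 1))
          ≤ (1 / 4 : ℝ) ^ (18 * (N + 1) + (j + 1)) * ((21 / 20) ^ (18 * (N + 1)) * tm ‖z‖ N) :=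
            mul_le_mul_of_nonneg_left h3 (by positivity)
        _ = (1 / 4 : ℝ) ^ (j + 1) * ((1 / 4 * (21 / 20)) ^ (18 * (N + 1)) * tm ‖z‖ N) := by
            rw [pow_add, mul_pow]; ring
        _ ≤ (1 / 4) ^ (j + 1) * (tm ‖z‖ N / 4) := by
            refine mul_le_mul_of_nonneg_left ?_ (by positivity)
            have h5 : (1 / 4 * (21 / 20) : ℝ) ^ (18 * (N + 1)) ≤ (1 / 4 * (21 / 20)) ^ 2 :=
              pow_le_pow_of_le_one (by norm_num) (by norm_num) (by omega)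
            have h6 : (1 / 4 * (21 / 20) : ℝ) ^ 2 ≤ 1 / 4 := by norm_num
            have h7 := mul_le_mul_of_nonneg_right (h5.trans h6) (tm_pos hz0 N).le
            linarith
    calc ‖ξ (j + (LL N + 1))‖ * tm ‖z‖ (j + (LL N + 1))
        ≤ 2 ^ (j + 1) * ((1 / 4) ^ (j + 1) * (tm ‖z‖ N / 4)) :=
          mul_le_mul h1 h2 (tm_pos hz0 _).le (by positivity)
      _ = tm ‖z‖ N / 4 * ((2 * (1 / 4)) ^ (j + 1)) := by rw [mul_pow]; ring
      _ = tm ‖z‖ N / 4 * (1 / 2) ^ (j + 1) := by norm_num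
  have hgeo : HasSum (fun j : ℕ => tm ‖z‖ N / 4 * (1 / 2 : ℝ) ^ (j + 1)) (tm ‖z‖ N / 4) := by
    have h := (hasSum_geometric_of_lt_one (r := (1 / 2 : ℝ)) (by norm_num)
      (by norm_num)).mul_left (tm ‖z‖ N / 8)
    have e : (fun j : ℕ => tm ‖z‖ N / 4 * (1 / 2 : ℝ) ^ (j + 1)) =
        fun j => tm ‖z‖ N / 8 * (1 / 2) ^ j := by funext j; rw [pow_succ]; ring
    rw [e]
    have e2 : tm ‖z‖ N / 8 * (1 - 1 / 2)⁻¹ = tm ‖z‖ N / 4 := by norm_num; ring
    rwa [e2] at h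
  have hsum1 : Summable (fun j => T (j + (LL N + 1))) :=
    Summable.of_norm_bounded hgeo.summable htail
  have hsumm : Summable T := (summable_nat_add_iff (LL N + 1)).1 hsum1
  have htail2 : ‖∑' j, T (j + (LL N + 1))‖ ≤ tm ‖z‖ N / 4 := by
    rw [← hgeo.tsum_eq]
    exact tsum_of_norm_bounded hgeo htail |>.trans (le_of_eq hgeo.tsum_eq.symm)
  have hdecomp : gef ξ z = T N + (∑ i ∈ (range (LL N + 1)).erase N, T i) +
      ∑' j, T (j + (LL N + 1)) := by
    unfold gef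
    rw [← hsumm.sum_add_tsum_nat_add (LL N + 1),
      Finset.add_sum_erase _ _ (mem_range.2 (by omega))]
  have hlow2 : ‖∑ i ∈ (range (LL N + 1)).erase N, T i‖ ≤ tm ‖z‖ N / 4 := by
    refine (norm_sum_le _ _).trans ?_
    have h1 : ∑ i ∈ (range (LL N + 1)).erase N, ‖T i‖ ≤
        ∑ _i ∈ (range (LL N + 1)).erase N, tm ‖z‖ N / (4 * LL N) := by
      refine sum_le_sum fun i hi => ?_
      rw [mem_erase, mem_range] at hi
      exact hlow i (by omega) hi.1
    refine h1.trans (le_of_eq ?_)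
    rw [sum_const, card_erase_of_mem (mem_range.2 (by omega)), card_range, Nat.add_sub_cancel,
      nsmul_eq_mul]
    field_simp
  intro h0
  rw [h0] at hdecomp
  have h1 : T N = -((∑ i ∈ (range (LL N + 1)).erase N, T i) + ∑' j, T (j + (LL N + 1))) := by
    linear_combination -hdecomp
  have h2 : ‖T N‖ ≤ tm ‖z‖ N / 4 + tm ‖z‖ N / 4 := by
    rw [h1, norm_neg]
    exact (norm_add_le _ _).trans (add_le_add hlow2 htail2)
  have := tm_pos hz0 N
  linarith

end

/-! ### The probability of the good event -/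

section Prob

variable {w : ℝ} {N : ℕ}

/-- lower bounds for the probabilities -/
noncomputable def bb (w : ℝ) (N m : ℕ) : ℝ :=
  if m = N then Real.exp (-9) else
    if m ≤ LL N then dd w N ^ 2 * Real.exp (-1) else 1 - (1 / 4) ^ (m - LL N)

theorem dd_le (hw : 0 ≤ w) : dd w N ≤ 1 := by
  unfold dd
  have h1 : (1 : ℝ) ≤ (LL N : ℝ) := by
    have : 1 ≤ LL N := by unfold LL; omega
    exact_mod_cast this
  have h2 : (1 : ℝ) ≤ (1 + w) ^ LL N := one_le_pow₀ (by linarith)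
  rw [div_le_one (by positivity)]
  nlinarith

theorem bb_pos (hw : 0 ≤ w) (m : ℕ) : 0 < bb w N m := by
  unfold bb
  have := dd_pos (N := N) hw
  split_ifs with h1 h2
  · positivity
  · positivity
  · have : (1 / 4 : ℝ) ^ (m - LL N) ≤ (1 / 4) ^ 1 :=
      pow_le_pow_of_le_one (by norm_num) (by norm_num) (by omega)
    linarith

theorem bb_le (hw : 0 ≤ w) (m : ℕ) : ENNReal.ofReal (bb w N m) ≤ gaussC (Good w N m) := by
  unfold bb Good
  split_ifs with h1 h2
  · have h := gaussC_ge 2 (ρ := 1) (R := 3) zero_le_one (fun w hw => by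
      rw [Metric.mem_closedBall, dist_eq_norm] at hw
      have h2 := norm_add_le (w - 2) 2
      rw [sub_add_cancel, Complex.norm_ofNat] at h2
      linarith)
    norm_num at h
    exact h
  · have hd := dd_pos (N := N) hw
    have hd1 := dd_le (N := N) hw
    have h := gaussC_ge 0 (ρ := dd w N) (R := 1) hd.le (fun w hw => by
      rw [mem_closedBall_zero_iff] at hw
      linarith)
    norm_num at h
    exact h
  · have h := gaussC_tail (R := 2 ^ (m - LL N)) (by positivity)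
    have e : (1 : ℝ) / (2 ^ (m - LL N)) ^ 2 = (1 / 4) ^ (m - LL N) := by
      rw [← pow_mul, mul_comm, pow_mul, one_div, ← inv_pow]
      norm_num
    rwa [e] at h

theorem prod_tail (k : ℕ) : 2 / 3 + 1 / 3 * (1 / 4 : ℝ) ^ k ≤
    ∏ i ∈ range k, (1 - (1 / 4 : ℝ) ^ (i + 1)) := by
  induction k with
  | zero => norm_num
  | succ k ih =>
    rw [prod_range_succ]
    have h1 : (0 : ℝ) < (1 / 4 : ℝ) ^ k := by positivity
    have h2 : (1 / 4 : ℝ) ^ k ≤ 1 := pow_le_one₀ (by norm_num) (by norm_num)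
    have h3 : (1 / 4 : ℝ) ^ (k + 1) = (1 / 4) ^ k / 4 := by rw [pow_succ]; ring
    have h4 : 0 ≤ 1 - (1 / 4 : ℝ) ^ (k + 1) := by rw [h3]; linarith
    refine le_trans ?_ (mul_le_mul_of_nonneg_right ih h4)
    rw [h3]
    nlinarith

/-- the lower bound for the probability of the good event -/
noncomputable def BB (w : ℝ) (N : ℕ) : ℝ :=
  Real.exp (-9) * (dd w N ^ 2 * Real.exp (-1)) ^ LL N * (2 / 3)

theorem BB_pos (hw : 0 ≤ w) : 0 < BB w N := by
  have := dd_pos (N := N) hw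
  unfold BB
  positivity

theorem prod_bb (hw : 0 ≤ w) (k : ℕ) : BB w N ≤ ∏ m ∈ range (LL N + 1 + k), bb w N m := by
  have hd := dd_pos (N := N) hw
  rw [prod_range_add]
  have hN : N ∈ range (LL N + 1) := by rw [mem_range]; unfold LL; omega
  have h1 : ∏ m ∈ range (LL N + 1), bb w N m =
      Real.exp (-9) * (dd w N ^ 2 * Real.exp (-1)) ^ LL N := by
    rw [← mul_prod_erase _ _ hN]
    have h2 : ∏ m ∈ (range (LL N + 1)).erase N, bb w N m =
        ∏ _m ∈ (range (LL N + 1)).erase N, (dd w N ^ 2 * Real.exp (-1)) := by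
      refine prod_congr rfl fun m hm => ?_
      rw [mem_erase, mem_range] at hm
      unfold bb
      rw [if_neg hm.1, if_pos (by omega)]
    rw [h2, prod_const, card_erase_of_mem hN, card_range, Nat.add_sub_cancel]
    simp [bb]
  have h3 : ∏ i ∈ range k, bb w N (LL N + 1 + i) = ∏ i ∈ range k, (1 - (1 / 4 : ℝ) ^ (i + 1)) := by
    refine prod_congr rfl fun i _ => ?_
    unfold bb
    have e1 : LL N + 1 + i ≠ N := by unfold LL; omega
    rw [if_neg e1, if_neg (by omega), show LL N + 1 + i - LL N = i + 1 by omega]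
  rw [h1, h3]
  unfold BB
  refine mul_le_mul_of_nonneg_left ?_ (by positivity)
  refine le_trans ?_ (prod_tail k)
  have : (0 : ℝ) < (1 / 4 : ℝ) ^ k := by positivity
  linarith

theorem measurable_Good (m : ℕ) : MeasurableSet (Good w N m) := by
  unfold Good
  split_ifs <;> exact measurableSet_closedBall

theorem prob_good (hw : 0 ≤ w) :
    ENNReal.ofReal (BB w N) ≤ gefLaw (Set.univ.pi (Good w N)) := by
  have hanti : Antitone (fun n : ℕ => Set.pi (range n : Set ℕ) (Good w N)) := by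
    intro n m hnm ξ hξ i hi
    exact hξ i (by
      rw [mem_coe, mem_range] at hi ⊢
      omega)
  have hmeas : ∀ n : ℕ, NullMeasurableSet (Set.pi (range n : Set ℕ) (Good w N)) gefLaw :=
    fun n => (MeasurableSet.pi (Finset.countable_toSet _) fun m _ =>
      measurable_Good m).nullMeasurableSet
  have hlim := tendsto_measure_iInter_atTop (μ := gefLaw) hmeas hanti ⟨0, measure_ne_top _ _⟩
  have hInter : (⋂ n : ℕ, Set.pi (range n : Set ℕ) (Good w N)) = Set.univ.pi (Good w N) := by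
    ext ξ
    simp only [Set.mem_iInter, Set.mem_pi, mem_coe, mem_range, Set.mem_univ, true_implies]
    exact ⟨fun h i => h (i + 1) i (Nat.lt_succ_self i), fun h n i _ => h i⟩
  rw [hInter] at hlim
  refine ge_of_tendsto hlim ?_
  filter_upwards [eventually_ge_atTop (LL N + 1)] with n hn
  obtain ⟨k, rfl⟩ : ∃ k, n = LL N + 1 + k := ⟨n - (LL N + 1), by omega⟩
  simp only [Function.comp]
  unfold gefLaw
  rw [Measure.infinitePi_pi _ (fun m _ => measurable_Good m)]
  calc ENNReal.ofReal (BB w N) ≤ ENNReal.ofReal (∏ m ∈ range (LL N + 1 + k), bb w N m) :=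
        ENNReal.ofReal_le_ofReal (prod_bb hw k)
    _ = ∏ m ∈ range (LL N + 1 + k), ENNReal.ofReal (bb w N m) :=
        ENNReal.ofReal_prod_of_nonneg fun m _ => (bb_pos hw m).le
    _ ≤ _ := prod_le_prod' fun m _ => bb_le hw m

theorem hole_ge {r : ℝ} (hr : 0 < r) (hw : 0 ≤ w) (hw1 : w ≤ 1 / 20) :
    holeExponent (halfAnnulus w) r ≤ -Real.log (BB w ⌊r ^ 2⌋₊) := by
  set N := ⌊r ^ 2⌋₊ with hNdef
  have hN1 : (N : ℝ) ≤ r ^ 2 := Nat.floor_le (by positivity)
  have hN2 : r ^ 2 < (N : ℝ) + 1 := Nat.lt_floor_add_one _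
  have hsub : Set.univ.pi (Good w N) ⊆ {ξ | ∀ z ∈ halfAnnulus w, gef ξ (r * z) ≠ 0} := by
    intro ξ hξ z hz
    refine no_zero hr hw hw1 hN1 hN2 (fun m => hξ m (Set.mem_univ _)) ?_ ?_
    · rw [norm_mul, Complex.norm_real, Real.norm_eq_abs, abs_of_pos hr]
      nlinarith [hz.1]
    · rw [norm_mul, Complex.norm_real, Real.norm_eq_abs, abs_of_pos hr, mul_comm]
      exact mul_le_mul_of_nonneg_right hz.2.1 hr.le
  have h1 : ENNReal.ofReal (BB w N) ≤ gefLaw {ξ | ∀ z ∈ halfAnnulus w, gef ξ (r * z) ≠ 0} :=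
    (prob_good hw).trans (measure_mono hsub)
  have h2 : BB w N ≤ gefLaw.real {ξ | ∀ z ∈ halfAnnulus w, gef ξ (r * z) ≠ 0} := by
    have h3 : gefLaw {ξ | ∀ z ∈ halfAnnulus w, gef ξ (r * z) ≠ 0} ≠ ⊤ := by
      have : IsProbabilityMeasure gefLaw := by unfold gefLaw; infer_instance
      exact measure_ne_top _ _
    rwa [Measure.real, ← ENNReal.ofReal_le_iff_le_toReal h3]
  unfold holeExponent
  exact neg_le_neg (Real.log_le_log (BB_pos hw) h2)

theorem log_BB (hw : 0 ≤ w) : -Real.log (BB w N) ≤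
    (LL N : ℝ) * (2 * Real.log (4 * LL N) + 2 * LL N * w + 1) + 10 := by
  have hd := dd_pos (N := N) hw
  have hL : (0 : ℝ) < (LL N : ℝ) := by unfold LL; positivity
  unfold BB
  rw [Real.log_mul (by positivity) (by norm_num), Real.log_mul (by positivity) (by positivity),
    Real.log_exp, Real.log_pow, Real.log_mul (by positivity) (by positivity), Real.log_exp,
    Real.log_pow]
  have h1 : Real.log (dd w N) = -(Real.log (4 * LL N) + LL N * Real.log (1 + w)) := by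
    unfold dd
    rw [one_div, Real.log_inv, Real.log_mul (by positivity) (by positivity), Real.log_pow]
  have h2 : Real.log (1 + w) ≤ w := by
    have := Real.log_le_sub_one_of_pos (show 0 < 1 + w by linarith)
    linarith
  have h3 : -Real.log (2 / 3) ≤ 1 := by
    rw [← Real.log_inv]
    have := Real.log_le_sub_one_of_pos (show (0 : ℝ) < (2 / 3)⁻¹ by norm_num)
    norm_num at this ⊢
    linarith
  rw [h1]
  have h4 : (LL N : ℝ) * ((LL N : ℝ) * Real.log (1 + w)) ≤ LL N * (LL N * w) :=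
    mul_le_mul_of_nonneg_left (mul_le_mul_of_nonneg_left h2 hL.le) hL.le
  push_cast
  nlinarith

theorem eventually_small (hw : 0 < w) (hw1 : w ≤ 1 / 20) :
    ∀ᶠ r : ℝ in atTop, holeExponent (halfAnnulus w) r ≤ 4107 * w * r ^ 4 := by
  have hlog : ∀ᶠ x : ℝ in atTop, Real.log x ≤ w / 16 * x := by
    have h := Real.isLittleO_log_id_atTop.bound (show 0 < w / 16 by positivity)
    filter_upwards [h, eventually_ge_atTop 1] with x hx hx1
    rw [Real.norm_eq_abs, Real.norm_eq_abs, id, abs_of_nonneg (show (0 : ℝ) ≤ x by linarith)] at hx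
    exact (le_abs_self _).trans hx
  have hquad : ∀ᶠ x : ℝ in atTop, x + 10 ≤ w / 2 * x ^ 2 := by
    have h1 : ∀ᶠ x : ℝ in atTop, 22 / w ≤ x := eventually_ge_atTop _
    filter_upwards [h1, eventually_ge_atTop 1] with x hx hx1
    rw [div_le_iff₀ hw] at hx
    nlinarith
  have hLt : Tendsto (fun r : ℝ => ((LL ⌊r ^ 2⌋₊ : ℕ) : ℝ)) atTop atTop := by
    refine tendsto_atTop_mono (fun r => ?_) tendsto_id
    have h2 : r ^ 2 < (⌊r ^ 2⌋₊ : ℝ) + 1 := Nat.lt_floor_add_one _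
    unfold LL
    push_cast
    simp only [id]
    nlinarith [sq_nonneg (r - 1)]
  have hL4 : Tendsto (fun r : ℝ => 4 * ((LL ⌊r ^ 2⌋₊ : ℕ) : ℝ)) atTop atTop :=
    hLt.const_mul_atTop (by norm_num)
  filter_upwards [hL4.eventually hlog, hLt.eventually hquad, eventually_ge_atTop 6] with r h1 h2 h6
  have hr : 0 < r := by linarith
  refine (hole_ge hr hw.le hw1).trans ((log_BB hw.le).trans ?_)
  set L : ℝ := ((LL ⌊r ^ 2⌋₊ : ℕ) : ℝ) with hLdef
  have hL0 : 0 ≤ L := by rw [hLdef]; positivity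
  have hLr : L ≤ 37 * r ^ 2 := by
    have h3 : (⌊r ^ 2⌋₊ : ℝ) ≤ r ^ 2 := Nat.floor_le (by positivity)
    rw [hLdef]
    unfold LL
    push_cast
    nlinarith
  have h5 : L * (2 * Real.log (4 * L) + 2 * L * w + 1) + 10 ≤ 3 * w * L ^ 2 := by
    have h7 : L * Real.log (4 * L) ≤ L * (w / 16 * (4 * L)) := mul_le_mul_of_nonneg_left h1 hL0
    nlinarith
  refine h5.trans ?_
  have h8 : L ^ 2 ≤ (37 * r ^ 2) ^ 2 := pow_le_pow_left₀ hL0 hLr 2
  nlinarith

end Prob

/-! ### Topology of the half annulus -/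

theorem isCompact_halfAnnulus (w : ℝ) : IsCompact (halfAnnulus w) := by
  have hcl : IsClosed (halfAnnulus w) := by
    have h1 : IsClosed {z : ℂ | 1 ≤ ‖z‖} := isClosed_le continuous_const continuous_norm
    have h2 : IsClosed {z : ℂ | ‖z‖ ≤ 1 + w} := isClosed_le continuous_norm continuous_const
    have h3 : IsClosed {z : ℂ | 0 ≤ z.im} := isClosed_le continuous_const Complex.continuous_im
    have e : halfAnnulus w = {z : ℂ | 1 ≤ ‖z‖} ∩ ({z : ℂ | ‖z‖ ≤ 1 + w} ∩ {z : ℂ | 0 ≤ z.im}) := by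
      ext z; simp [halfAnnulus]
    rw [e]
    exact h1.inter (h2.inter h3)
  refine (isCompact_closedBall (0 : ℂ) (1 + w)).of_isClosed_subset hcl fun z hz => ?_
  rw [mem_closedBall_zero_iff]
  exact hz.2.1

theorem isConnected_halfAnnulus {w : ℝ} (hw : 0 ≤ w) : IsConnected (halfAnnulus w) := by
  have himg : (fun p : ℝ × ℝ => (p.1 : ℂ) * Complex.exp (p.2 * Complex.I)) ''
      (Set.Icc 1 (1 + w) ×ˢ Set.Icc 0 Real.pi) = halfAnnulus w := by
    ext z
    constructor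
    · rintro ⟨⟨ρ, θ⟩, ⟨⟨h1, h2⟩, ⟨h3, h4⟩⟩, rfl⟩
      simp only at h1 h2 h3 h4
      have hn : ‖(ρ : ℂ) * Complex.exp (θ * Complex.I)‖ = ρ := by
        rw [norm_mul, Complex.norm_exp_ofReal_mul_I, mul_one, Complex.norm_real,
          Real.norm_eq_abs, abs_of_nonneg (by linarith)]
      refine ⟨by simp only [hn]; exact h1, by simp only [hn]; exact h2, ?_⟩
      simp only [Complex.im_ofReal_mul, Complex.exp_ofReal_mul_I_im]
      exact mul_nonneg (by linarith) (Real.sin_nonneg_of_nonneg_of_le_pi h3 h4)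
    · rintro ⟨h1, h2, h3⟩
      refine ⟨(‖z‖, Complex.arg z), ⟨⟨h1, h2⟩, ⟨Complex.arg_nonneg_iff.2 h3,
        Complex.arg_le_pi z⟩⟩, ?_⟩
      exact Complex.norm_mul_exp_arg_mul_I z
  rw [← himg]
  refine IsConnected.image ?_ _ (by fun_prop)
  refine ⟨⟨(1, 0), ⟨⟨le_rfl, by linarith⟩, ⟨le_rfl, Real.pi_pos.le⟩⟩⟩, ?_⟩
  exact isPreconnected_Icc.prod isPreconnected_Icc

theorem interior_halfAnnulus {w : ℝ} (hw : 0 < w) : (interior (halfAnnulus w)).Nonempty := by
  have hopen : IsOpen {z : ℂ | 1 < ‖z‖ ∧ ‖z‖ < 1 + w ∧ 0 < z.im} := by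
    have h1 : IsOpen {z : ℂ | 1 < ‖z‖} := isOpen_lt continuous_const continuous_norm
    have h2 : IsOpen {z : ℂ | ‖z‖ < 1 + w} := isOpen_lt continuous_norm continuous_const
    have h3 : IsOpen {z : ℂ | 0 < z.im} := isOpen_lt continuous_const Complex.continuous_im
    exact h1.inter (h2.inter h3)
  have hsub : {z : ℂ | 1 < ‖z‖ ∧ ‖z‖ < 1 + w ∧ 0 < z.im} ⊆ halfAnnulus w :=
    fun z hz => ⟨hz.1.le, hz.2.1.le, hz.2.2.le⟩
  refine ⟨((1 + w / 2 : ℝ) : ℂ) * Complex.I, interior_maximal hsub hopen ?_⟩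
  have hn : ‖((1 + w / 2 : ℝ) : ℂ) * Complex.I‖ = 1 + w / 2 := by
    rw [norm_mul, Complex.norm_I, mul_one, Complex.norm_real, Real.norm_eq_abs,
      abs_of_pos (by linarith)]
  refine ⟨by rw [hn]; linarith, by rw [hn]; linarith, ?_⟩
  simp
  linarith

/-! ### Capacity -/

/-- the points `e^{iπk/n}` -/
noncomputable def pt (n : ℕ) (k : ℕ) : ℂ := Complex.exp (Complex.I * ((Real.pi * k / n : ℝ) : ℂ))

theorem pt_mem {w : ℝ} (hw : 0 ≤ w) {n k : ℕ} (hk : k < n) : pt n k ∈ halfAnnulus w := by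
  have hn : (0 : ℝ) < n := by exact_mod_cast (by omega : 0 < n)
  have h1 : ‖pt n k‖ = 1 := by
    unfold pt
    rw [mul_comm, Complex.norm_exp_ofReal_mul_I]
  refine ⟨by rw [h1], by rw [h1]; linarith, ?_⟩
  unfold pt
  rw [mul_comm, Complex.exp_ofReal_mul_I_im]
  refine Real.sin_nonneg_of_nonneg_of_le_pi (by positivity) ?_
  rw [div_le_iff₀ hn]
  have : (k : ℝ) ≤ n := by exact_mod_cast hk.le
  exact mul_le_mul_of_nonneg_left this Real.pi_pos.le

theorem pt_dist {n i j : ℕ} (hij : i < j) (hj : j < n) :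
    2 * ((j : ℝ) - i) / n ≤ ‖pt n i - pt n j‖ := by
  have hn : (0 : ℝ) < n := by exact_mod_cast (by omega : 0 < n)
  have hijR : (i : ℝ) < j := by exact_mod_cast hij
  have e : pt n j - pt n i = pt n i *
      (Complex.exp (Complex.I * ((Real.pi * ((j : ℝ) - i) / n : ℝ) : ℂ)) - 1) := by
    unfold pt
    rw [mul_sub, mul_one, ← Complex.exp_add]
    congr 2
    push_cast
    ring
  have h1 : ‖pt n i‖ = 1 := by
    unfold pt
    rw [mul_comm, Complex.norm_exp_ofReal_mul_I]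
  rw [norm_sub_rev, e, norm_mul, h1, one_mul, Complex.norm_exp_I_mul_ofReal_sub_one,
    Real.norm_eq_abs]
  refine le_trans ?_ (le_abs_self _)
  have h2 := Real.mul_le_sin (x := Real.pi * ((j : ℝ) - i) / n / 2)
    (by have : 0 ≤ (j : ℝ) - i := by linarith
        positivity)
    (by
      rw [div_div, div_le_div_iff₀ (by positivity) (by norm_num)]
      have h3 : (j : ℝ) - i ≤ n := by
        have : (j : ℝ) ≤ n := by exact_mod_cast hj.le
        have : (0 : ℝ) ≤ i := Nat.cast_nonneg i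
        linarith
      nlinarith [Real.pi_pos])
  have h4 : 2 / Real.pi * (Real.pi * ((j : ℝ) - i) / n / 2) = ((j : ℝ) - i) / n := by
    have := Real.pi_ne_zero
    field_simp
  rw [h4] at h2
  calc 2 * ((j : ℝ) - i) / n = 2 * (((j : ℝ) - i) / n) := by ring
    _ ≤ _ := by linarith

theorem inner_prod (m : ℕ) (i : Fin (m + 1)) :
    2 ^ (m + 1 - (i : ℕ)) * Real.exp (-((m : ℝ) + 2)) ≤
      ∏ j ∈ Ioi (Fin.castSucc i : Fin (m + 2)),
        ‖pt (m + 2) (Fin.castSucc i : Fin (m + 2)) - pt (m + 2) j‖ := by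
  have h1 : ∏ j ∈ Ioi (Fin.castSucc i : Fin (m + 2)),
      (2 * (((j : ℕ) : ℝ) - ((i : ℕ) : ℝ)) / ((m + 2 : ℕ) : ℝ)) ≤
      ∏ j ∈ Ioi (Fin.castSucc i : Fin (m + 2)),
        ‖pt (m + 2) (Fin.castSucc i : Fin (m + 2)) - pt (m + 2) j‖ := by
    refine prod_le_prod (fun j hj => ?_) fun j hj => ?_
    · rw [mem_Ioi] at hj
      have h2 : ((i : ℕ) : ℝ) < ((j : ℕ) : ℝ) := by exact_mod_cast hj
      have : 0 ≤ ((j : ℕ) : ℝ) - ((i : ℕ) : ℝ) := by linarith
      positivity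
    · rw [mem_Ioi] at hj
      have h2 : (i : ℕ) < (j : ℕ) := hj
      exact pt_dist h2 j.2
  refine le_trans ?_ h1
  have h2 : ∏ j ∈ Ioi (Fin.castSucc i : Fin (m + 2)),
      (2 * (((j : ℕ) : ℝ) - ((i : ℕ) : ℝ)) / ((m + 2 : ℕ) : ℝ)) =
      ∏ x ∈ Ioo (i : ℕ) (m + 2), (2 * ((x : ℝ) - ((i : ℕ) : ℝ)) / ((m + 2 : ℕ) : ℝ)) := by
    have h3 := Fin.map_valEmbedding_Ioi (Fin.castSucc i : Fin (m + 2))
    rw [Fin.val_castSucc] at h3
    rw [← h3, prod_map]
    rfl
  have h4 : Ioo (i : ℕ) (m + 2) = Ico ((i : ℕ) + 1) (m + 2) := by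
    ext x; simp only [mem_Ioo, mem_Ico]; omega
  rw [h2, h4, prod_Ico_eq_prod_range]
  have h5 : m + 2 - ((i : ℕ) + 1) = m + 1 - (i : ℕ) := by omega
  rw [h5]
  set M := m + 1 - (i : ℕ)
  have h6 : ∏ k ∈ range M, (2 * (((((i : ℕ) + 1 + k : ℕ) : ℝ)) - ((i : ℕ) : ℝ)) /
      ((m + 2 : ℕ) : ℝ)) = 2 ^ M * ((M.factorial : ℝ) / ((m : ℝ) + 2) ^ M) := by
    have h7 : ∀ k : ℕ, (2 * (((((i : ℕ) + 1 + k : ℕ) : ℝ)) - ((i : ℕ) : ℝ)) /
      ((m + 2 : ℕ) : ℝ)) = (2 / ((m : ℝ) + 2)) * ((k + 1 : ℕ) : ℝ) := by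
      intro k; push_cast; ring
    simp only [h7]
    rw [prod_mul_distrib, prod_const, card_range, ← Nat.cast_prod,
      Finset.prod_range_add_one_eq_factorial, div_pow]
    ring
  rw [h6]
  refine mul_le_mul_of_nonneg_left ?_ (by positivity)
  have h8 := Real.pow_div_factorial_le_exp (x := (m : ℝ) + 2) (by positivity) M
  have h9 : (0 : ℝ) < M.factorial := by exact_mod_cast M.factorial_pos
  rw [Real.exp_neg, ← one_div, div_le_div_iff₀ (Real.exp_pos _) (by positivity)]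
  rw [div_le_iff₀ h9] at h8
  linarith

theorem prod_two (m : ℕ) : (∏ i ∈ range (m + 1), (2 : ℝ) ^ (m + 1 - i)) ^ 2 =
    2 ^ ((m + 1) * (m + 2)) := by
  induction m with
  | zero => norm_num
  | succ m ih =>
    rw [prod_range_succ', mul_pow]
    have h : ∀ i ∈ range (m + 1), (2 : ℝ) ^ (m + 1 + 1 - (i + 1)) = 2 ^ (m + 1 - i) := by
      intro i _
      congr 1
      omega
    rw [prod_congr rfl h, ih, ← pow_mul, ← pow_add]
    congr 1
    simp only [Nat.sub_zero]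
    ring

theorem cap_ge {w : ℝ} (hw : 0 ≤ w) : 2 * Real.exp (-2) ≤ cap (halfAnnulus w) := by
  unfold cap
  refine le_ciInf fun m => ?_
  set e : ℝ := (2 : ℝ) / (((m : ℝ) + 2) * ((m : ℝ) + 1)) with he
  have he0 : 0 ≤ e := by positivity
  -- the configuration
  set V : ℝ := ∏ i : Fin (m + 2), ∏ j ∈ Ioi i, ‖pt (m + 2) i - pt (m + 2) j‖ with hV
  have hbdd : BddAbove (Set.range fun z : Fin (m + 2) → halfAnnulus w =>
      ∏ i, ∏ j ∈ Ioi i, ‖(z i : ℂ) - z j‖) := by
    refine ⟨∏ i : Fin (m + 2), ∏ _j ∈ Ioi i, (2 * (1 + w)), ?_⟩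
    rintro _ ⟨z, rfl⟩
    refine prod_le_prod (fun i _ => prod_nonneg fun j _ => norm_nonneg _) fun i _ =>
      prod_le_prod (fun j _ => norm_nonneg _) fun j _ => ?_
    have h1 := (z i).2.2.1
    have h2 := (z j).2.2.1
    exact (norm_sub_le _ _).trans (by linarith)
  have hVle : V ≤ ⨆ z : Fin (m + 2) → halfAnnulus w, ∏ i, ∏ j ∈ Ioi i, ‖(z i : ℂ) - z j‖ :=
    le_ciSup hbdd (fun i => ⟨pt (m + 2) i, pt_mem hw i.2⟩)
  have hV1 : (∏ i ∈ range (m + 1), (2 : ℝ) ^ (m + 1 - i)) *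
      Real.exp (-((m : ℝ) + 2)) ^ (m + 1) ≤ V := by
    rw [hV, Fin.prod_univ_castSucc]
    have hlast : ∏ j ∈ Ioi (Fin.last (m + 1)), ‖pt (m + 2) (Fin.last (m + 1)) - pt (m + 2) j‖ = 1 := by
      have : Ioi (Fin.last (m + 1)) = ∅ := by
        ext x; simp [Fin.le_last]
      rw [this, prod_empty]
    rw [hlast, mul_one, ← Fin.prod_univ_eq_prod_range (fun i => (2 : ℝ) ^ (m + 1 - i)) (m + 1)]
    have h3 : Real.exp (-((m : ℝ) + 2)) ^ (m + 1) =
        ∏ _i : Fin (m + 1), Real.exp (-((m : ℝ) + 2)) := by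
      rw [prod_const, card_univ, Fintype.card_fin]
    rw [h3, ← prod_mul_distrib]
    exact prod_le_prod (fun i _ => by positivity) fun i _ => inner_prod m i
  have hV2 : (2 * Real.exp (-2)) ^ ((m + 1) * (m + 2)) ≤ V ^ 2 := by
    have h4 := pow_le_pow_left₀ (by positivity) hV1 2
    rw [mul_pow, prod_two] at h4
    refine le_trans (le_of_eq ?_) h4
    rw [mul_pow, ← Real.exp_nat_mul, ← Real.exp_nat_mul, ← Real.exp_nat_mul]
    congr 2
    push_cast
    ring
  have hV0 : 0 ≤ V := prod_nonneg fun i _ => prod_nonneg fun j _ => norm_nonneg _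
  have hfin : 2 * Real.exp (-2) ≤ V ^ e := by
    have h5 : V ^ e = (V ^ 2) ^ (e / 2) := by
      rw [← Real.rpow_natCast V 2, ← Real.rpow_mul hV0]
      congr 1
      push_cast
      ring
    rw [h5]
    have h6 := Real.rpow_le_rpow (by positivity) hV2 (show 0 ≤ e / 2 by positivity)
    refine le_trans (le_of_eq ?_) h6
    rw [← Real.rpow_natCast, ← Real.rpow_mul (by positivity)]
    have h7 : (((m + 1) * (m + 2) : ℕ) : ℝ) * (e / 2) = 1 := by
      rw [he]
      push_cast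
      field_simp
    rw [h7, Real.rpow_one]
  exact hfin.trans (Real.rpow_le_rpow hV0 hVle he0)

/-- **The capacity does not determine the hole probability.** For every `ε > 0` there is a half
annulus `K` (a compact connected set with non-empty interior, homeomorphic to a closed disk) whose
logarithmic capacity is at least `2/e²` while the hole exponent is at most `ε r⁴` for large `r`.
Moreover the conjectured asymptotics fail for it. -/
theorem result : ∀ ε : ℝ, 0 < ε → ∃ w : ℝ, 0 < w ∧ IsCompact (halfAnnulus w) ∧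
    IsConnected (halfAnnulus w) ∧ (interior (halfAnnulus w)).Nonempty ∧
    2 * Real.exp (-2) ≤ cap (halfAnnulus w) ∧
    (∀ᶠ r : ℝ in atTop, holeExponent (halfAnnulus w) r ≤ ε * r ^ 4) ∧
    ¬ Tendsto (fun r : ℝ => holeExponent (halfAnnulus w) r / r ^ 4) atTop
      (𝓝 (Real.exp 2 / 4 * cap (halfAnnulus w) ^ 4)) := by
  intro ε hε
  set η : ℝ := min ε (Real.exp (-6)) with hη
  have hη0 : 0 < η := lt_min hε (Real.exp_pos _)
  set w : ℝ := min (1 / 20) (η / 4107) with hw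
  have hw0 : 0 < w := lt_min (by norm_num) (by positivity)
  have hw1 : w ≤ 1 / 20 := min_le_left _ _
  have hw2 : 4107 * w ≤ η := by
    have : w ≤ η / 4107 := min_le_right _ _
    linarith
  have hev : ∀ᶠ r : ℝ in atTop, holeExponent (halfAnnulus w) r ≤ η * r ^ 4 := by
    filter_upwards [eventually_small hw0 hw1] with r hr
    exact hr.trans (mul_le_mul_of_nonneg_right hw2 (by positivity))
  refine ⟨w, hw0, isCompact_halfAnnulus w, isConnected_halfAnnulus hw0.le,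
    interior_halfAnnulus hw0, cap_ge hw0.le, ?_, ?_⟩
  · filter_upwards [hev] with r hr
    exact hr.trans (mul_le_mul_of_nonneg_right (min_le_left _ _) (by positivity))
  · intro hT
    have hle : Real.exp 2 / 4 * cap (halfAnnulus w) ^ 4 ≤ η := by
      refine le_of_tendsto hT ?_
      filter_upwards [hev, eventually_gt_atTop 0] with r hr hr0
      rw [div_le_iff₀ (by positivity)]
      exact hr
    have h1 : (2 * Real.exp (-2)) ^ 4 ≤ cap (halfAnnulus w) ^ 4 :=
      pow_le_pow_left₀ (by positivity) (cap_ge hw0.le) 4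
    have h2 : Real.exp 2 / 4 * (2 * Real.exp (-2)) ^ 4 = 4 * Real.exp (-6) := by
      rw [mul_pow, ← Real.exp_nat_mul]
      have : Real.exp (-6) = Real.exp 2 * Real.exp (((4 : ℕ) : ℝ) * -2) := by
        rw [← Real.exp_add]; norm_num
      rw [this]
      ring
    have h3 : Real.exp 2 / 4 * (2 * Real.exp (-2)) ^ 4 ≤
        Real.exp 2 / 4 * cap (halfAnnulus w) ^ 4 :=
      mul_le_mul_of_nonneg_left h1 (by positivity)
    have h4 : η ≤ Real.exp (-6) := min_le_right _ _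
    have h5 := Real.exp_pos (-6)
    linarith

end Pool.Agent.Results.MP_629fb1_pr.HalfAnnulus
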